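import Pool.Agent.W998.KG.Stm4
import Pool.Agent.W571.KG.CNT

/-! Project KG, part MFB: a closed tree with 7 vertices is not grown from a 5-cycle. -/

set_option autoImplicit false

namespace Pool.Agent.W156.KG.MFB

open Pool.Agent.Results.MP_633d19_co.SmallDegree
open Pool.Agent.Results.MP_633d19_co.SmallDegree.MGraph
open Pool.Agent.W998.KG

variable {V E : Type}

/-- adjacency of the vertices with numbers `i`, `j` -/
def Ad (G : MGraph V E) (y : ℕ → V) (i j : ℕ) : Prop := ∃ e, G.ends e = s(y i, y j)

theorem Ad.symm {G : MGraph V E} {y : ℕ → V} {i j : ℕ} (h : Ad G y i j) : Ad G y j i := by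
  obtain ⟨e, he⟩ := h
  exact ⟨e, by rw [he, Sym2.eq_swap]⟩

theorem Ad.ne {G : MGraph V E} {y : ℕ → V} {i j : ℕ} (h : Ad G y i j) : y i ≠ y j := by
  obtain ⟨e, he⟩ := h
  intro h2
  apply G.loopless e
  rw [he, h2]
  exact Sym2.mk_isDiag_iff.mpr rfl

theorem noTri {G : MGraph V E} {y : ℕ → V} (hg : ∀ l, 3 ≤ l → G.HasCycle l → 5 ≤ l) {a b c : ℕ}
    (h1 : Ad G y a b) (h2 : Ad G y b c) (h3 : Ad G y c a) : False := by
  have n1 := h1.ne
  have n2 := h2.ne
  have n3 := h3.ne
  have : G.HasCycle 3 := by
    refine ⟨fun t => if t = 0 then y a else if t = 1 then y b else y c, ?_, ?_⟩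
    · intro i hi j hj hij
      interval_cases i <;> interval_cases j <;> simp at hij ⊢ <;> first
        | exact n1 hij
        | exact n2 hij
        | exact n3 hij
        | exact n1 hij.symm
        | exact n2 hij.symm
        | exact n3 hij.symm
    · intro i hi
      interval_cases i
      · simpa [Ad] using h1
      · simpa [Ad] using h2
      · simpa [Ad] using h3
  have := hg 3 le_rfl this
  omega

theorem noQuad {G : MGraph V E} {y : ℕ → V} (hg : ∀ l, 3 ≤ l → G.HasCycle l → 5 ≤ l)
    {a b c d : ℕ}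
    (h1 : Ad G y a b) (h2 : Ad G y b c) (h3 : Ad G y c d) (h4 : Ad G y d a) (hac : y a ≠ y c)
    (hbd : y b ≠ y d) : False := by
  have n1 := h1.ne
  have n2 := h2.ne
  have n3 := h3.ne
  have n4 := h4.ne
  have : G.HasCycle 4 := by
    refine ⟨fun t => if t = 0 then y a else if t = 1 then y b else if t = 2 then y c else y d,
      ?_, ?_⟩
    · intro i hi j hj hij
      interval_cases i <;> interval_cases j <;> simp at hij ⊢ <;> first
        | exact n1 hij
        | exact n2 hij
        | exact n3 hij
        | exact n4 hij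
        | exact hac hij
        | exact hbd hij
        | exact n1 hij.symm
        | exact n2 hij.symm
        | exact n3 hij.symm
        | exact n4 hij.symm
        | exact hac hij.symm
        | exact hbd hij.symm
    · intro i hi
      interval_cases i
      · simpa [Ad] using h1
      · simpa [Ad] using h2
      · simpa [Ad] using h3
      · simpa [Ad] using h4
  have := hg 4 (by norm_num) this
  omega

theorem main : PartMFB := by
  classical
  intro V E _ _ G k Δ hk hdeg hmult hg y f h pr α β c H helem hcl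
  have := Fintype.ofFinite E
  have hinj := H.inj
  -- missing colours
  set m : ℕ → ℕ := fun j => (G.ms c α β (y j)).card with hm
  have hm1 : ∀ j, j ≤ 6 → 1 ≤ m j := by
    intro j hj
    by_cases hj5 : j < 5
    · have := H.st.card_ms (by norm_num) hdeg hj5
      show 1 ≤ (G.ms c α β (y j)).card
      omega
    · obtain ⟨h2, h3⟩ := helem.2 j (not_lt.1 hj5) hj
      have := Pool.Agent.W571.KG.CNT.card_ms' (hdeg (y j)) h2 h3
      show 1 ≤ (G.ms c α β (y j)).card
      omega
  have hsum : ∑ j ∈ Finset.range 7, m j = m 0 + m 1 + m 2 + m 3 + m 4 + m 5 + m 6 := by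
    simp only [Finset.sum_range_succ, Finset.sum_range_zero, zero_add]
  -- edges of missing type
  set MT : E → Prop := fun e => c e = none ∨ ∃ a, c e = some a ∧ ∃ j ≤ 6, G.Miss c (y j) a
    with hMT
  set M : ℕ → Finset E := fun i => Finset.univ.filter (fun e => y i ∈ G.ends e ∧ MT e) with hM
  have hMmem : ∀ i e, e ∈ M i ↔ y i ∈ G.ends e ∧ MT e := fun i e => by
    simp only [hM, Finset.mem_filter, Finset.mem_univ, true_and]
  set EE : ℕ → ℕ → Finset E := fun i j => Finset.univ.filter (fun e => G.ends e = s(y i, y j))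
    with hEE
  have hEmem : ∀ i j e, e ∈ EE i j ↔ G.ends e = s(y i, y j) := fun i j e => by
    simp only [hEE, Finset.mem_filter, Finset.mem_univ, true_and]
  have hE4 : ∀ i ≤ 6, ∀ j ≤ 6, (EE i j).card ≤ 4 := by
    intro i hi j hj
    by_cases hij : i = j
    · subst hij
      have : EE i i = ∅ := by
        rw [Finset.eq_empty_iff_forall_notMem]
        intro e he
        rw [hEmem] at he
        apply G.loopless e
        rw [he]
        exact Sym2.mk_isDiag_iff.mpr rfl
      rw [this]
      simp
    · have h3 := hmult (y i) (y j) (fun h => hij (hinj i hi j hj h))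
      unfold mult at h3
      rw [Nat.card_eq_fintype_card, Fintype.card_subtype] at h3
      exact h3
  have hin : ∀ i ≤ 6, ∀ e ∈ M i, ∃ j ≤ 6, G.ends e = s(y i, y j) := by
    intro i hi e he
    rw [hMmem] at he
    obtain ⟨he1, he2⟩ := he
    rcases he2 with he2 | ⟨a, ha, j, hj, hja⟩
    · obtain ⟨t, ht, rfl⟩ := (H.st.none_iff e).1 he2
      rw [H.st.ed t ht] at he1 ⊢
      have hnx : nx 5 t < 5 := nx_lt ht
      rcases Sym2.mem_iff.1 he1 with h1 | h1
      · exact ⟨nx 5 t, by omega, by rw [h1]⟩
      · exact ⟨t, by omega, by rw [h1, Sym2.eq_swap]⟩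
    · exact hcl i hi e a he1 ha ⟨j, hj, hja⟩
  -- colours
  set S : ℕ → Finset (Fin k) := fun i =>
    ((Finset.range 7).erase i).biUnion (fun j => G.ms c α β (y j)) with hS
  have hSmem : ∀ i a, a ∈ S i ↔ ∃ j ≤ 6, j ≠ i ∧ a ∈ G.ms c α β (y j) := by
    intro i a
    simp only [hS, Finset.mem_biUnion, Finset.mem_erase, Finset.mem_range]
    constructor
    · rintro ⟨j, ⟨h1, h2⟩, h3⟩
      exact ⟨j, by omega, h1, h3⟩
    · rintro ⟨j, h1, h2, h3⟩
      exact ⟨j, ⟨h2, by omega⟩, h3⟩
  have hScard : ∀ i ≤ 6, (S i).card + m i = ∑ j ∈ Finset.range 7, m j := by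
    intro i hi
    have h1 : (S i).card = ∑ j ∈ (Finset.range 7).erase i, m j := by
      simp only [hS]
      rw [Finset.card_biUnion]
      intro a ha b hb hab
      rw [Finset.mem_coe, Finset.mem_erase, Finset.mem_range] at ha hb
      rw [Function.onFun, Finset.disjoint_left]
      intro x hx hx'
      rw [mem_ms] at hx hx'
      rcases Nat.lt_or_gt_of_ne hab with h1 | h1
      · exact helem.1 a b h1 (by omega) x hx.1 hx.2.1 hx.2.2 hx'.2.2
      · exact helem.1 b a h1 (by omega) x hx.1 hx.2.1 hx'.2.2 hx.2.2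
    rw [h1, add_comm]
    exact Finset.add_sum_erase _ _ (Finset.mem_range.2 (by omega))
  have hS6 : ∀ i ≤ 6, 6 ≤ (S i).card := by
    intro i hi
    have h1 := hScard i hi
    have a0 := hm1 0 (by norm_num)
    have a1 := hm1 1 (by norm_num)
    have a2 := hm1 2 (by norm_num)
    have a3 := hm1 3 (by norm_num)
    have a4 := hm1 4 (by norm_num)
    have a5 := hm1 5 (by norm_num)
    have a6 := hm1 6 (by norm_num)
    rw [hsum] at h1
    interval_cases i <;> omega
  have hprev : ∀ i < 5, ∃ t, t < 5 ∧ nx 5 t = i ∧ i ≠ t := by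
    intro i hi
    rcases Nat.eq_zero_or_pos i with h0 | h0
    · exact ⟨4, by omega, by unfold nx; split_ifs <;> omega, by omega⟩
    · exact ⟨i - 1, by omega, by unfold nx; split_ifs <;> omega, by omega⟩
  have hlow : ∀ i ≤ 6, (S i).card + 2 ≤ (M i).card := by
    intro i hi
    set M1 := (M i).filter (fun e => ∃ a ∈ S i, c e = some a) with hM1
    have h1 : (S i).card ≤ M1.card := by
      have h2 : S i ⊆ M1.image (fun e => (c e).getD α) := by
        intro a ha
        obtain ⟨j, hj, hji, hja⟩ := (hSmem i a).1 ha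
        rw [mem_ms] at hja
        have h3 : ¬ G.Miss c (y i) a := by
          intro h4
          rcases Nat.lt_or_gt_of_ne hji with h5 | h5
          · exact helem.1 j i h5 hi a hja.1 hja.2.1 hja.2.2 h4
          · exact helem.1 i j h5 hj a hja.1 hja.2.1 h4 hja.2.2
        unfold Miss at h3
        push Not at h3
        obtain ⟨e, he, hea⟩ := h3
        rw [Finset.mem_image]
        refine ⟨e, ?_, by simp [hea]⟩
        rw [hM1, Finset.mem_filter, hMmem]
        exact ⟨⟨he, Or.inr ⟨a, hea, j, hj, hja.2.2⟩⟩, a, ha, hea⟩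
      exact (Finset.card_le_card h2).trans Finset.card_image_le
    have h2 : ∃ e1 e2 : E, e1 ≠ e2 ∧ e1 ∈ M i ∧ e2 ∈ M i ∧ (∀ a ∈ S i, c e1 ≠ some a) ∧
        ∀ a ∈ S i, c e2 ≠ some a := by
      by_cases hi5 : i < 5
      · have finj := G.edge_inj (by norm_num) H.st.inj H.st.ed
        obtain ⟨t, ht, hti, hit⟩ := hprev i hi5
        have c1 : c (f i) = none := (H.st.none_iff _).2 ⟨i, hi5, rfl⟩
        have c2 : c (f t) = none := (H.st.none_iff _).2 ⟨t, ht, rfl⟩
        refine ⟨f i, f t, fun hf => hit (finj i hi5 t ht hf), ?_, ?_, ?_, ?_⟩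
        · rw [hMmem]
          exact ⟨by rw [H.st.ed i hi5]; simp, Or.inl c1⟩
        · rw [hMmem]
          exact ⟨by rw [H.st.ed t ht, hti]; simp, Or.inl c2⟩
        · intro a _
          rw [c1]
          exact (Option.some_ne_none a).symm
        · intro a _
          rw [c2]
          exact (Option.some_ne_none a).symm
      · obtain ⟨hα, hβ⟩ := helem.2 i (not_lt.1 hi5) hi
        unfold Miss at hα hβ
        push Not at hα hβ
        obtain ⟨e1, he1, hc1⟩ := hα
        obtain ⟨e2, he2, hc2⟩ := hβ
        refine ⟨e1, e2, ?_, ?_, ?_, ?_, ?_⟩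
        · rintro rfl
          rw [hc1] at hc2
          exact H.st.ne (Option.some.inj hc2)
        · rw [hMmem]
          exact ⟨he1, Or.inr ⟨α, hc1, 0, by omega, H.st.ma 0 (by omega)⟩⟩
        · rw [hMmem]
          exact ⟨he2, Or.inr ⟨β, hc2, 0, by omega, H.st.mb 0 (by omega)⟩⟩
        · intro a ha hea
          rw [hc1] at hea
          obtain ⟨j, hj, hji, hja⟩ := (hSmem i a).1 ha
          rw [mem_ms] at hja
          exact hja.1 (Option.some.inj hea).symm
        · intro a ha hea
          rw [hc2] at hea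
          obtain ⟨j, hj, hji, hja⟩ := (hSmem i a).1 ha
          rw [mem_ms] at hja
          exact hja.2.1 (Option.some.inj hea).symm
    obtain ⟨e1, e2, hne, he1, he2, hc1, hc2⟩ := h2
    have h3 : M1 ∪ {e1, e2} ⊆ M i := by
      intro e he
      rw [Finset.mem_union] at he
      rcases he with he | he
      · exact (Finset.mem_filter.1 he).1
      · simp only [Finset.mem_insert, Finset.mem_singleton] at he
        rcases he with rfl | rfl
        · exact he1
        · exact he2
    have h4 : Disjoint M1 {e1, e2} := by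
      rw [Finset.disjoint_left]
      intro e he he'
      obtain ⟨a, ha, hea⟩ := (Finset.mem_filter.1 he).2
      simp only [Finset.mem_insert, Finset.mem_singleton] at he'
      rcases he' with rfl | rfl
      · exact hc1 a ha hea
      · exact hc2 a ha hea
    have h5 := Finset.card_le_card h3
    rw [Finset.card_union_of_disjoint h4, Finset.card_pair hne] at h5
    omega
  have hupp : ∀ i, i < 5 → (M i).card ≤ (S i).card + 2 := by
    intro i hi5
    obtain ⟨t, ht, hti, hit⟩ := hprev i hi5
    have h1 : M i ⊆ {f i, f t} ∪ (M i).filter (fun e => ∃ a ∈ S i, c e = some a) := by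
      intro e he
      rw [Finset.mem_union]
      obtain ⟨he1, he2⟩ := (hMmem i e).1 he
      rcases he2 with he2 | ⟨a, ha, j, hj, hja⟩
      · left
        obtain ⟨t', ht', rfl⟩ := (H.st.none_iff e).1 he2
        rw [H.st.ed t' ht'] at he1
        rcases Sym2.mem_iff.1 he1 with h1 | h1
        · have := H.st.inj i hi5 t' ht' h1
          subst this
          simp
        · have h2 := H.st.inj i hi5 _ (nx_lt ht') h1
          have h3 : nx 5 t' = nx 5 t := by rw [hti, ← h2]
          have := nx_inj h3
          subst this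
          simp
      · right
        rw [Finset.mem_filter]
        refine ⟨he, a, ?_, ha⟩
        rw [hSmem]
        refine ⟨j, hj, ?_, ?_⟩
        · rintro rfl
          exact hja e he1 ha
        · rw [mem_ms]
          refine ⟨?_, ?_, hja⟩
          · rintro rfl
            exact H.st.ma i hi5 e he1 ha
          · rintro rfl
            exact H.st.mb i hi5 e he1 ha
    have h2 : ((M i).filter (fun e => ∃ a ∈ S i, c e = some a)).card ≤ (S i).card := by
      refine Finset.card_le_card_of_injOn (fun e => (c e).getD α) ?_ ?_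
      · intro e he
        obtain ⟨_, a, ha, hea⟩ := Finset.mem_filter.1 (Finset.mem_coe.1 he)
        simp only [hea, Option.getD_some]
        exact ha
      · intro e he e' he' hee
        obtain ⟨h3, a, ha, hea⟩ := Finset.mem_filter.1 (Finset.mem_coe.1 he)
        obtain ⟨h4, a', ha', hea'⟩ := Finset.mem_filter.1 (Finset.mem_coe.1 he')
        simp only [hea, hea', Option.getD_some] at hee
        subst hee
        exact H.st.pp e e' (y i) a ((hMmem i e).1 h3).1 ((hMmem i e').1 h4).1 hea hea'
    have h3 := Finset.card_le_card h1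
    have h4 := Finset.card_union_le {f i, f t} ((M i).filter (fun e => ∃ a ∈ S i, c e = some a))
    have h5 : ({f i, f t} : Finset E).card ≤ 2 := Finset.card_le_two
    omega
  -- at most two neighbours
  have hB : ∀ i ≤ 6, ∀ a ≤ 6, ∀ b ≤ 6, (∀ j ≤ 6, Ad G y i j → j = a ∨ j = b) →
      (S i).card ≤ 6 ∧ (EE i a).card = 4 ∧ ∀ e ∈ EE i a, MT e := by
    intro i hi a ha b hb hN
    have h1 : M i ⊆ EE i a ∪ EE i b := by
      intro e he
      obtain ⟨j, hj, hej⟩ := hin i hi e he
      rw [Finset.mem_union, hEmem, hEmem]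
      rcases hN j hj ⟨e, hej⟩ with rfl | rfl
      · exact Or.inl hej
      · exact Or.inr hej
    have h2 := Finset.card_le_card h1
    have h3 := Finset.card_union_le (EE i a) (EE i b)
    have h4 := hE4 i hi a ha
    have h5 := hE4 i hi b hb
    have h6 := hlow i hi
    have h7 := hS6 i hi
    refine ⟨by omega, by omega, fun e he => ?_⟩
    have h8 := Finset.eq_of_subset_of_card_le h1 (by omega)
    have h9 : e ∈ M i := by
      rw [h8]
      exact Finset.mem_union_left _ he
    exact ((hMmem i e).1 h9).2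
  have hdisj : ∀ i ≤ 6, ∀ j ≤ 6, ∀ v ≤ 6, i ≠ j → Disjoint (EE i v) (EE j v) := by
    intro i hi j hj v hv hij
    rw [Finset.disjoint_left]
    intro e he he'
    rw [hEmem] at he he'
    rw [he, Sym2.eq_iff] at he'
    apply hij
    apply hinj i hi j hj
    rcases he' with ⟨h1, _⟩ | ⟨h1, h2⟩
    · exact h1
    · rw [h1, h2]
  have hfin : ∀ v w u a b v2 : ℕ, v < 5 → w ≤ 6 → u ≤ 6 → a ≤ 6 → b ≤ 6 → v2 ≤ 6 →
      w ≠ 5 → u ≠ 5 → w ≠ u → (∀ j ≤ 6, Ad G y 5 j → j = v ∨ j = 6) →
      (∀ j ≤ 6, Ad G y 6 j → j = 5 ∨ j = v2) → (∀ j ≤ 6, Ad G y w j → j = v ∨ j = a) →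
      (∀ j ≤ 6, Ad G y u j → j = v ∨ j = b) → False := by
    intro v w u a b v2 hv hw hu ha hb hv2 hw5 hu5 hwu h5 h6 hNw hNu
    obtain ⟨p1, p2, p3⟩ := hB 5 (by norm_num) v (by omega) 6 (by norm_num) h5
    obtain ⟨q1, -, -⟩ := hB 6 (by norm_num) 5 (by norm_num) v2 hv2 h6
    obtain ⟨-, r2, r3⟩ := hB w hw v (by omega) a ha hNw
    obtain ⟨-, s2, s3⟩ := hB u hu v (by omega) b hb hNu
    have d1 := hdisj w hw u hu v (by omega) hwu
    have d2 : Disjoint (EE 5 v) (EE w v ∪ EE u v) := by
      rw [Finset.disjoint_union_right]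
      exact ⟨hdisj 5 (by norm_num) w hw v (by omega) hw5.symm,
        hdisj 5 (by norm_num) u hu v (by omega) hu5.symm⟩
    have t1 : EE 5 v ∪ (EE w v ∪ EE u v) ⊆ M v := by
      intro e he
      rw [hMmem]
      rw [Finset.mem_union, Finset.mem_union] at he
      rcases he with he | he | he
      · refine ⟨?_, p3 e he⟩
        rw [hEmem] at he
        rw [he]
        simp
      · refine ⟨?_, r3 e he⟩
        rw [hEmem] at he
        rw [he]
        simp
      · refine ⟨?_, s3 e he⟩
        rw [hEmem] at he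
        rw [he]
        simp
    have t2 := Finset.card_le_card t1
    rw [Finset.card_union_of_disjoint d2, Finset.card_union_of_disjoint d1, p2, r2, s2] at t2
    have k1 := hScard 5 (by norm_num)
    have k2 := hScard 6 (by norm_num)
    have k3 := hScard v (by omega)
    have k4 := hupp v hv
    have a0 := hm1 0 (by norm_num)
    have a1 := hm1 1 (by norm_num)
    have a2 := hm1 2 (by norm_num)
    have a3 := hm1 3 (by norm_num)
    have a4 := hm1 4 (by norm_num)
    have a5 := hm1 5 (by norm_num)
    have a6 := hm1 6 (by norm_num)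
    have av := hm1 v (by omega)
    rw [hsum] at k1 k2 k3
    omega
  have hex : ∀ i ≤ 6, ∀ a ≤ 6, ∃ j ≤ 6, j ≠ a ∧ Ad G y i j := by
    intro i hi a ha
    by_contra hcon
    push Not at hcon
    have h1 : M i ⊆ EE i a := by
      intro e he
      obtain ⟨j, hj, hej⟩ := hin i hi e he
      by_cases hja : j = a
      · subst hja
        rw [hEmem]
        exact hej
      · exact absurd ⟨e, hej⟩ (hcon j hj hja)
    have := Finset.card_le_card h1
    have := hE4 i hi a ha
    have := hlow i hi
    have := hS6 i hi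
    omega
  -- the graph
  have hcyc : ∀ i < 5, Ad G y i (nx 5 i) := fun i hi => ⟨f i, H.st.ed i hi⟩
  have c01 : Ad G y 0 1 := hcyc 0 (by norm_num)
  have c12 : Ad G y 1 2 := hcyc 1 (by norm_num)
  have c23 : Ad G y 2 3 := hcyc 2 (by norm_num)
  have c34 : Ad G y 3 4 := hcyc 3 (by norm_num)
  have c40 : Ad G y 4 0 := hcyc 4 (by norm_num)
  have hch : ∀ i < 5, ∀ j < 5, Ad G y i j → j = nx 5 i ∨ i = nx 5 j := by
    intro i hi j hj hij
    interval_cases i <;> interval_cases j <;> first
      | exact Or.inl rfl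
      | exact Or.inr rfl
      | exact absurd rfl hij.ne
      | exact (noTri hg hij c12.symm c01.symm).elim
      | exact (noTri hg hij c01 c12).elim
      | exact (noTri hg hij c34 c40).elim
      | exact (noTri hg hij c40.symm c34.symm).elim
      | exact (noTri hg hij c23.symm c12.symm).elim
      | exact (noTri hg hij c12 c23).elim
      | exact (noTri hg hij c40 c01).elim
      | exact (noTri hg hij c01.symm c40.symm).elim
      | exact (noTri hg hij c34.symm c23.symm).elim
      | exact (noTri hg hij c23 c34).elim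
  have hdist : ∀ i < 5, ∀ j < 5, i ≠ j → Ad G y i j ∨ ∃ w < 5, Ad G y i w ∧ Ad G y w j := by
    intro i hi j hj hij
    interval_cases i <;> interval_cases j <;> first
      | exact absurd rfl hij
      | exact Or.inl c01
      | exact Or.inl c12
      | exact Or.inl c23
      | exact Or.inl c34
      | exact Or.inl c40
      | exact Or.inl c01.symm
      | exact Or.inl c12.symm
      | exact Or.inl c23.symm
      | exact Or.inl c34.symm
      | exact Or.inl c40.symm
      | exact Or.inr ⟨1, by norm_num, c01, c12⟩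
      | exact Or.inr ⟨1, by norm_num, c12.symm, c01.symm⟩
      | exact Or.inr ⟨2, by norm_num, c12, c23⟩
      | exact Or.inr ⟨2, by norm_num, c23.symm, c12.symm⟩
      | exact Or.inr ⟨3, by norm_num, c23, c34⟩
      | exact Or.inr ⟨3, by norm_num, c34.symm, c23.symm⟩
      | exact Or.inr ⟨4, by norm_num, c34, c40⟩
      | exact Or.inr ⟨4, by norm_num, c40.symm, c34.symm⟩
      | exact Or.inr ⟨0, by norm_num, c40, c01⟩
      | exact Or.inr ⟨0, by norm_num, c01.symm, c40.symm⟩
  have huniq : ∀ x, (x = 5 ∨ x = 6) → ∀ i < 5, ∀ j < 5, Ad G y x i → Ad G y x j → i = j := by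
    intro x hx i hi j hj h1 h2
    by_contra hij
    rcases hdist i hi j hj hij with h3 | ⟨w, hw, h3, h4⟩
    · exact noTri hg h1 h3 h2.symm
    · refine noQuad hg h1 h3 h4 h2.symm (fun h => ?_) (fun h => ?_)
      · have := hinj x (by omega) w (by omega) h
        omega
      · exact hij (hinj i (by omega) j (by omega) h)
  obtain ⟨v1, hv1, hv16, ha1⟩ := hex 5 (by norm_num) 6 (by norm_num)
  have hv15 : v1 ≠ 5 := by
    rintro rfl
    exact ha1.ne rfl
  have hv1' : v1 < 5 := by omega
  obtain ⟨v2, hv2, hv25, ha2⟩ := hex 6 (by norm_num) 5 (by norm_num)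
  have hv26 : v2 ≠ 6 := by
    rintro rfl
    exact ha2.ne rfl
  have hv2' : v2 < 5 := by omega
  have h56 : Ad G y 5 6 := by
    by_contra hno
    obtain ⟨j, hj, hjv, hja⟩ := hex 5 (by norm_num) v1 hv1
    have j5 : j ≠ 5 := by
      rintro rfl
      exact hja.ne rfl
    have j6 : j ≠ 6 := by
      rintro rfl
      exact hno hja
    exact hjv (huniq 5 (Or.inl rfl) j (by omega) v1 hv1' hja ha1)
  have hN5 : ∀ j ≤ 6, Ad G y 5 j → j = v1 ∨ j = 6 := by
    intro j hj hja
    have j5 : j ≠ 5 := by
      rintro rfl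
      exact hja.ne rfl
    by_cases j6 : j = 6
    · exact Or.inr j6
    · exact Or.inl (huniq 5 (Or.inl rfl) j (by omega) v1 hv1' hja ha1)
  have hN6 : ∀ j ≤ 6, Ad G y 6 j → j = 5 ∨ j = v2 := by
    intro j hj hja
    have j6 : j ≠ 6 := by
      rintro rfl
      exact hja.ne rfl
    by_cases j5 : j = 5
    · exact Or.inl j5
    · exact Or.inr (huniq 6 (Or.inr rfl) j (by omega) v2 hv2' hja ha2)
  have hne12 : v1 ≠ v2 := by
    rintro rfl
    exact noTri hg h56 ha2 ha1.symm
  have hnadj : ¬ Ad G y v1 v2 := by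
    intro h
    refine noQuad hg ha1 h ha2.symm h56.symm (fun h' => ?_) (fun h' => ?_)
    · have := hinj 5 (by norm_num) v2 hv2 h'
      omega
    · have := hinj v1 hv1 6 (by norm_num) h'
      omega
  have hNw : ∀ w < 5, w ≠ v1 → Ad G y v1 w → ∀ j ≤ 6, Ad G y w j →
      j < 5 ∧ (j = nx 5 w ∨ w = nx 5 j) := by
    intro w hw hw1 haw j hj hja
    have j5 : j ≠ 5 := by
      rintro rfl
      exact hw1 (huniq 5 (Or.inl rfl) w hw v1 hv1' hja.symm ha1)
    have j6 : j ≠ 6 := by
      rintro rfl
      have := huniq 6 (Or.inr rfl) w hw v2 hv2' hja.symm ha2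
      subst this
      exact hnadj haw
    exact ⟨by omega, hch w hw j (by omega) hja⟩
  have key : ∀ w p q : ℕ, w < 5 → w ≠ v1 → Ad G y v1 w →
      (∀ j < 5, (j = nx 5 w ∨ w = nx 5 j) → j = p ∨ j = q) →
      ∀ j ≤ 6, Ad G y w j → j = p ∨ j = q := by
    intro w p q hw hw1 haw hpq j hj hja
    obtain ⟨h1, h2⟩ := hNw w hw hw1 haw j hj hja
    exact hpq j h1 h2
  clear hNw
  interval_cases v1
  · exact hfin 0 4 1 3 2 v2 (by norm_num) (by norm_num) (by norm_num) (by norm_num) (by norm_num)
      hv2 (by norm_num) (by norm_num) (by norm_num) hN5 hN6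
      (key 4 0 3 (by norm_num) (by norm_num) c40.symm (by decide))
      (key 1 0 2 (by norm_num) (by norm_num) c01 (by decide))
  · exact hfin 1 0 2 4 3 v2 (by norm_num) (by norm_num) (by norm_num) (by norm_num) (by norm_num)
      hv2 (by norm_num) (by norm_num) (by norm_num) hN5 hN6
      (key 0 1 4 (by norm_num) (by norm_num) c01.symm (by decide))
      (key 2 1 3 (by norm_num) (by norm_num) c12 (by decide))
  · exact hfin 2 1 3 0 4 v2 (by norm_num) (by norm_num) (by norm_num) (by norm_num) (by norm_num)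
      hv2 (by norm_num) (by norm_num) (by norm_num) hN5 hN6
      (key 1 2 0 (by norm_num) (by norm_num) c12.symm (by decide))
      (key 3 2 4 (by norm_num) (by norm_num) c23 (by decide))
  · exact hfin 3 2 4 1 0 v2 (by norm_num) (by norm_num) (by norm_num) (by norm_num) (by norm_num)
      hv2 (by norm_num) (by norm_num) (by norm_num) hN5 hN6
      (key 2 3 1 (by norm_num) (by norm_num) c23.symm (by decide))
      (key 4 3 0 (by norm_num) (by norm_num) c34 (by decide))
  · exact hfin 4 3 0 2 1 v2 (by norm_num) (by norm_num) (by norm_num) (by norm_num) (by norm_num)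
      hv2 (by norm_num) (by norm_num) (by norm_num) hN5 hN6
      (key 3 4 2 (by norm_num) (by norm_num) c34.symm (by decide))
      (key 0 4 1 (by norm_num) (by norm_num) c40 (by decide))

end Pool.Agent.W156.KG.MFB
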